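import Pool.Agent.X220.ZK.Fam
import Pool.Agent.X220.FP.Cor

set_option autoImplicit false

/-! # Equidistribution in residue classes and the sieve theorems -/

namespace Pool.Agent.X220.ZK

open Finset Polynomial
open Pool.Agent.X55.Fam
open Pool.Agent.H469R2.NK (e norm_e e_add e_zero)
open Pool.Agent.TH915.PW (class_le)

variable {G : Type} [AddCommGroup G] [Fintype G]

lemma geo2 (q h : ℕ) (h1 : 1 ≤ h) (hq : h < q) (M H : ℕ) : ‖∑ n ∈ Ioc M (M + H), e ((h : ℝ) / q * n)‖ ≤ 2 * q := by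
  have a1 : ‖∑ n ∈ Ioc 0 M, e (n * ((h : ℝ) / q))‖ ≤ q := Pool.Agent.X55.Mod.geo q h h1 hq M
  have a2 : ‖∑ n ∈ Ioc 0 (M + H), e (n * ((h : ℝ) / q))‖ ≤ q := Pool.Agent.X55.Mod.geo q h h1 hq (M + H)
  have h2 : ∑ n ∈ Ioc 0 (M + H), e (n * ((h : ℝ) / q)) = ∑ n ∈ Ioc 0 M, e (n * ((h : ℝ) / q)) +
      ∑ n ∈ Ioc M (M + H), e ((h : ℝ) / q * n) := by
    have e0 : Ioc 0 (M + H) = Ioc 0 M ∪ Ioc M (M + H) := by
      ext n
      rw [mem_union, mem_Ioc, mem_Ioc, mem_Ioc]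
      omega
    rw [e0, sum_union]
    · congr 1
      refine sum_congr rfl fun n _ => by rw [mul_comm]
    · rw [disjoint_left]
      intro n hn hn'
      rw [mem_Ioc] at hn hn'
      omega
  have h3 : ∑ n ∈ Ioc M (M + H), e ((h : ℝ) / q * n) = ∑ n ∈ Ioc 0 (M + H), e (n * ((h : ℝ) / q)) -
      ∑ n ∈ Ioc 0 M, e (n * ((h : ℝ) / q)) := by rw [h2]; ring
  rw [h3]
  refine (norm_sub_le _ _).trans ?_
  linarith

open Classical in
theorem zk_class (g : ℕ → G) (hg : Spread g) : ∃ A X₀ : ℕ, 1 ≤ A ∧ ∀ X : ℕ, X₀ ≤ X → ∀ H : ℕ, X ^ A ≤ H →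
    ∀ (M : ℕ) (g₀ : G) (d r : ℕ), 1 ≤ d → d ≤ X →
    |((((Ioc M (M + H)).filter (fun n => zs g n = g₀)).filter (fun n => n ≡ r [MOD d])).card : ℝ) -
      (H / Fintype.card G : ℝ) / d| ≤ (H / Fintype.card G : ℝ) / (X : ℝ) ^ 2 := by
  obtain ⟨A, X₀, hE⟩ := exp_bound g hg 4
  refine ⟨A + 4, max X₀ (4 * Fintype.card G), by omega, ?_⟩
  intro X hX H hH M g₀ d r hd hdX
  have hX0 : X₀ ≤ X := (le_max_left _ _).trans hX
  have hXG : 4 * Fintype.card G ≤ X := (le_max_right _ _).trans hX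
  have hGpos : 0 < Fintype.card G := Fintype.card_pos
  have hG : (0 : ℝ) < Fintype.card G := by exact_mod_cast hGpos
  have hG1 : (1 : ℝ) ≤ Fintype.card G := by exact_mod_cast hGpos
  have hX1 : 1 ≤ X := by omega
  have hXr : (1 : ℝ) ≤ X := by exact_mod_cast hX1
  have hXGr : 4 * (Fintype.card G : ℝ) ≤ X := by exact_mod_cast hXG
  have hHA : X ^ A ≤ H := (Nat.pow_le_pow_right (by omega) (by omega)).trans hH
  have hH4 : (X : ℝ) ^ 4 ≤ H := by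
    have : X ^ 4 ≤ H := (Nat.pow_le_pow_right (by omega) (by omega)).trans hH
    exact_mod_cast this
  have hdr : (1 : ℝ) ≤ d := by exact_mod_cast hd
  set s := (Ioc M (M + H)).filter (fun n => zs g n = g₀) with hs
  set U : ℝ := H / (X : ℝ) ^ 4 with hU
  have hU0 : 0 ≤ U := by rw [hU]; positivity
  have hexp : ∀ x : ℝ, ‖(Fintype.card G : ℂ) * ∑ n ∈ s, e (x * n) - ∑ n ∈ Ioc M (M + H), e (x * n)‖ ≤
      Fintype.card G * U := by
    intro x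
    have e1 : (Fintype.card G : ℂ) * ∑ n ∈ s, e (x * n) =
        ∑ χ : AddChar G ℂ, χ (-g₀) * ∑ n ∈ Ioc M (M + H), χ (zs g n) * e (x * n) := by
      have e2 : ∀ n, (if zs g n = g₀ then (Fintype.card G : ℂ) else 0) = ∑ χ : AddChar G ℂ, χ (zs g n - g₀) := by
        intro n
        rw [AddChar.sum_apply_eq_ite]
        simp only [sub_eq_zero]
      rw [mul_sum, hs, sum_filter]
      simp only [mul_sum]
      rw [sum_comm]
      refine sum_congr rfl fun n _ => ?_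
      have e3 : (if zs g n = g₀ then (Fintype.card G : ℂ) * e (x * n) else 0) =
          (if zs g n = g₀ then (Fintype.card G : ℂ) else 0) * e (x * n) := by
        split_ifs <;> simp
      rw [e3, e2, sum_mul]
      refine sum_congr rfl fun χ _ => ?_
      rw [sub_eq_add_neg, AddChar.map_add_eq_mul]
      ring
    have e4 : (Fintype.card G : ℂ) * ∑ n ∈ s, e (x * n) - ∑ n ∈ Ioc M (M + H), e (x * n) =
        ∑ χ ∈ univ.erase (0 : AddChar G ℂ), χ (-g₀) * ∑ n ∈ Ioc M (M + H), χ (zs g n) * e (x * n) := by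
      rw [e1, ← add_sum_erase univ _ (mem_univ (0 : AddChar G ℂ))]
      simp
    rw [e4]
    refine (norm_sum_le _ _).trans ?_
    have e5 : ∀ χ ∈ univ.erase (0 : AddChar G ℂ),
        ‖χ (-g₀) * ∑ n ∈ Ioc M (M + H), χ (zs g n) * e (x * n)‖ ≤ U := by
      intro χ hχ
      rw [norm_mul, AddChar.norm_apply, one_mul]
      have := hE X hX0 H hHA χ (ne_of_mem_erase hχ) x M
      rw [hU, le_div_iff₀ (by positivity), mul_comm]
      exact this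
    refine (sum_le_card_nsmul _ _ _ e5).trans ?_
    rw [nsmul_eq_mul]
    apply mul_le_mul_of_nonneg_right _ hU0
    have e6 : (univ.erase (0 : AddChar G ℂ)).card ≤ Fintype.card G := by
      refine card_erase_le.trans ?_
      rw [card_univ, AddChar.card_eq]
    exact_mod_cast e6
  have hcard : |(s.card : ℝ) - H / Fintype.card G| ≤ U := by
    have h1 := hexp 0
    simp only [zero_mul, e_zero, sum_const, nsmul_eq_mul, mul_one, Nat.card_Ioc, Nat.add_sub_cancel_left] at h1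
    have h2 : ((Fintype.card G : ℂ) * (s.card : ℂ) - (H : ℂ)) =
        (((Fintype.card G : ℝ) * ((s.card : ℝ) - H / Fintype.card G) : ℝ) : ℂ) := by
      have : (Fintype.card G : ℝ) * ((s.card : ℝ) - H / Fintype.card G) = Fintype.card G * s.card - H := by
        field_simp
      rw [this]
      push_cast
      ring
    rw [h2, Complex.norm_real, Real.norm_eq_abs, abs_mul, abs_of_pos hG] at h1
    exact le_of_mul_le_mul_left h1 hG
  have hcl := class_le s (fun n => ((n : ℕ) : ℤ)) d hd (U + 2 * d) (by positivity) (by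
    intro h h1 hhd
    have e2 := hexp ((h : ℝ) / d)
    have e3 := geo2 d h h1 hhd M H
    have e4 : ‖(Fintype.card G : ℂ) * ∑ n ∈ s, e ((h : ℝ) / d * n)‖ ≤ Fintype.card G * U + 2 * d := by
      have := norm_add_le ((Fintype.card G : ℂ) * ∑ n ∈ s, e ((h : ℝ) / d * n) -
        ∑ n ∈ Ioc M (M + H), e ((h : ℝ) / d * n)) (∑ n ∈ Ioc M (M + H), e ((h : ℝ) / d * n))
      rw [sub_add_cancel] at this
      linarith
    rw [norm_mul, Complex.norm_natCast] at e4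
    have e5 : (Fintype.card G : ℝ) * ‖∑ n ∈ s, e ((h : ℝ) / d * n)‖ ≤ Fintype.card G * (U + 2 * d) := by
      refine e4.trans ?_
      have : (2 * d : ℝ) ≤ Fintype.card G * (2 * d) := by nlinarith
      linarith
    have e6 := le_of_mul_le_mul_left e5 hG
    exact_mod_cast e6) r
  have hfil : s.filter (fun i => (d : ℤ) ∣ ((i : ℕ) : ℤ) - (r : ℤ)) = s.filter (fun j => j ≡ r [MOD d]) := by
    apply filter_congr
    intro j _
    rw [Nat.ModEq.comm, Nat.modEq_iff_dvd]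
  rw [hfil] at hcl
  have h1 : |(s.card : ℝ) / d - (H / Fintype.card G : ℝ) / d| ≤ U := by
    rw [← sub_div, abs_div, abs_of_pos (by linarith : (0 : ℝ) < d)]
    calc _ ≤ |(s.card : ℝ) - H / Fintype.card G| / 1 := by
          apply div_le_div_of_nonneg_left (abs_nonneg _) (by norm_num) hdr
      _ ≤ _ := by rw [div_one]; exact hcard
  have h2 : |((s.filter (fun n => n ≡ r [MOD d])).card : ℝ) - (H / Fintype.card G : ℝ) / d| ≤ (U + 2 * d) + U :=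
    (abs_sub_le _ ((s.card : ℝ) / d) _).trans (add_le_add hcl h1)
  refine h2.trans ?_
  have hdX' : (d : ℝ) ≤ X := by exact_mod_cast hdX
  have hH0 : (0 : ℝ) ≤ H := Nat.cast_nonneg _
  have k1 : U ≤ (H / Fintype.card G : ℝ) / X ^ 2 / 4 := by
    rw [hU, div_div, div_div]
    apply div_le_div_of_nonneg_left hH0 (by positivity)
    have : 4 * (Fintype.card G : ℝ) ≤ (X : ℝ) ^ 2 := by nlinarith
    calc (Fintype.card G : ℝ) * ((X : ℝ) ^ 2 * 4) = (4 * (Fintype.card G : ℝ)) * (X : ℝ) ^ 2 := by ring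
      _ ≤ (X : ℝ) ^ 2 * (X : ℝ) ^ 2 := by gcongr
      _ = (X : ℝ) ^ 4 := by ring
  have k2 : 2 * (d : ℝ) ≤ (H / Fintype.card G : ℝ) / X ^ 2 / 2 := by
    rw [div_div, div_div, le_div_iff₀ (by positivity)]
    calc 2 * (d : ℝ) * ((Fintype.card G : ℝ) * ((X : ℝ) ^ 2 * 2)) ≤
        2 * (X : ℝ) * ((Fintype.card G : ℝ) * ((X : ℝ) ^ 2 * 2)) := by gcongr
      _ = (4 * (Fintype.card G : ℝ)) * (X : ℝ) ^ 3 := by ring
      _ ≤ (X : ℝ) * (X : ℝ) ^ 3 := by gcongr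
      _ = (X : ℝ) ^ 4 := by ring
      _ ≤ H := hH4
  linarith

theorem zk_fam (g : ℕ → G) (hg : Spread g) : ∃ δ₀ : ℝ, 0 < δ₀ ∧ δ₀ ≤ 1 ∧ ∃ H₀ : ℕ,
    ∀ H : ℕ, H₀ ≤ H → ∀ (M : ℕ) (g₀ : G),
    EqR ⌊(H : ℝ) ^ δ₀⌋₊ M H (fun n => zs g n = g₀) (H / Fintype.card G) := by
  obtain ⟨A, X₀, hA, hE⟩ := zk_class g hg
  have hAr : (1 : ℝ) ≤ A := by exact_mod_cast hA
  obtain ⟨H₁, hH₁⟩ := floor_big (1 / A) (by positivity) (max X₀ 1)
  refine ⟨1 / A, by positivity, by rw [div_le_one (by linarith)]; exact hAr, H₁, ?_⟩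
  intro H hH M g₀
  obtain ⟨g1, g2, g3⟩ := hH₁ H hH
  set X := ⌊(H : ℝ) ^ (1 / (A : ℝ))⌋₊ with hX
  have hX0 : X₀ ≤ X := (le_max_left _ _).trans g1
  have hHr : (3 : ℝ) ≤ H := by exact_mod_cast g3
  have hXA : X ^ A ≤ H := by
    have h1 : (X : ℝ) ≤ (H : ℝ) ^ (1 / (A : ℝ)) := Nat.floor_le (by positivity)
    have h2 : (X : ℝ) ^ A ≤ H := by
      calc (X : ℝ) ^ A ≤ ((H : ℝ) ^ (1 / (A : ℝ))) ^ A := by gcongr
        _ = H := by
          rw [← Real.rpow_natCast, ← Real.rpow_mul (by linarith), one_div_mul_cancel (by linarith), Real.rpow_one]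
    exact_mod_cast h2
  intro d hd hdX r
  exact hE X hX0 H hXA M g₀ d r hd hdX

/-- the corollaries -/
theorem zk_both (g : ℕ → G) (hg : Spread g) {m : ℕ} {f : Fin m → ℤ[X]} (h : Sys m f) (F : Fin m → ℕ → ℕ)
    (hF : ∀ (i : Fin m) (n : ℕ), ((f i).eval (n : ℤ)).natAbs = F i n) (B : ℕ) :
    ∃ (r : ℕ) (δ c C : ℝ) (H₀ : ℕ), 0 < δ ∧ 0 < c ∧ 0 < C ∧ ∀ H : ℕ, H₀ ≤ H → ∀ (M : ℕ) (g₀ : G),
    Both F H r δ c C B M H (fun n => zs g n = g₀) (H / Fintype.card G) := by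
  obtain ⟨δ₀, h1, h2, H1, h3⟩ := zk_fam g hg
  obtain ⟨r, δ, c, C, T₀, hδ, hc, hC, hb⟩ := both_of h F hF δ₀ h1 B
  refine ⟨r, δ, c, C, max H1 T₀, hδ, hc, hC, fun H hH M g₀ => ?_⟩
  exact hb H ((le_max_right _ _).trans hH) M H _ _ (by positivity) (h3 H ((le_max_left _ _).trans hH) M g₀)

theorem zk_asym (g : ℕ → G) (hg : Spread g) {m : ℕ} {f : Fin m → ℤ[X]} (h : Sys m f) (F : Fin m → ℕ → ℕ)
    (hF : ∀ (i : Fin m) (n : ℕ), ((f i).eval (n : ℤ)).natAbs = F i n) (η : ℝ) (hη : 0 < η) :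
    ∃ (δ : ℝ) (H₀ : ℕ), 0 < δ ∧ ∀ H : ℕ, H₀ ≤ H → ∀ (M : ℕ) (g₀ : G) (y : ℕ), 3 ≤ y → (y : ℝ) ≤ (H : ℝ) ^ δ →
    Asym F η M H y (fun n => zs g n = g₀) (H / Fintype.card G) := by
  obtain ⟨δ₀, h1, h2, H1, h3⟩ := zk_fam g hg
  obtain ⟨δ, T₀, hδ, hb⟩ := asym_of h F hF δ₀ η h1 hη
  refine ⟨δ, max H1 T₀, hδ, fun H hH M g₀ y hy hyH => ?_⟩
  exact hb H ((le_max_right _ _).trans hH) M H _ _ (by positivity) (h3 H ((le_max_left _ _).trans hH) M g₀) y hy hyH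

theorem zk_lin (g : ℕ → G) (hg : Spread g) (m : ℕ) (hm : 1 ≤ m) (B : ℕ) :
    ∃ (r : ℕ) (δ c C : ℝ) (H₀ : ℕ), 0 < δ ∧ 0 < c ∧ 0 < C ∧ ∀ H : ℕ, H₀ ≤ H → ∀ (a b : Fin m → ℤ), (∀ i, a i ≠ 0) →
    (∀ q : ℕ, q.Prime → ∃ n : ℕ, ∀ i, ¬ (q : ℤ) ∣ a i * n + b i) → ∀ (M : ℕ) (g₀ : G),
    BothL a b H r δ c C B M H (fun n => zs g n = g₀) (H / Fintype.card G) := by
  obtain ⟨δ₀, h1, h2, H1, h3⟩ := zk_fam g hg
  obtain ⟨r, δ, c, C, T₀, hδ, hc, hC, hb⟩ := lin_of m hm δ₀ h1 h2 B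
  refine ⟨r, δ, c, C, max H1 T₀, hδ, hc, hC, fun H hH a b ha hadm M g₀ => ?_⟩
  exact hb H ((le_max_right _ _).trans hH) a b ha hadm M H _ _ (by positivity)
    (h3 H ((le_max_left _ _).trans hH) M g₀)

theorem zk_linA (g : ℕ → G) (hg : Spread g) (m : ℕ) (hm : 1 ≤ m) (η : ℝ) (hη : 0 < η) :
    ∃ (δ : ℝ) (H₀ : ℕ), 0 < δ ∧ ∀ H : ℕ, H₀ ≤ H → ∀ (a b : Fin m → ℤ),
    (∀ q : ℕ, q.Prime → ∃ n : ℕ, ∀ i, ¬ (q : ℤ) ∣ a i * n + b i) → ∀ (M : ℕ) (g₀ : G) (y : ℕ), 3 ≤ y →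
    (y : ℝ) ≤ (H : ℝ) ^ δ → AsL a b η M H y (fun n => zs g n = g₀) (H / Fintype.card G) := by
  obtain ⟨δ₀, h1, h2, H1, h3⟩ := zk_fam g hg
  obtain ⟨δ, T₀, hδ, hb⟩ := linA_of m hm δ₀ η h1 hη
  refine ⟨δ, max H1 T₀, hδ, fun H hH a b hadm M g₀ y hy hyH => ?_⟩
  exact hb H ((le_max_right _ _).trans hH) a b hadm M H _ _ (by positivity)
    (h3 H ((le_max_left _ _).trans hH) M g₀) y hy hyH

/-- the number of the summands modulo `m` -/
theorem spread_const (m : ℕ) [NeZero m] : Spread (fun _ : ℕ => (1 : ZMod m)) := by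
  refine ⟨0, fun χ hχ k₀ => ⟨k₀, le_rfl, le_rfl, ?_⟩⟩
  intro h
  apply hχ
  have h1 : χ 1 = 1 := by
    have h2 : χ 1 ≠ 0 := by
      intro h0
      have := AddChar.norm_apply χ (1 : ZMod m)
      rw [h0, norm_zero] at this
      exact zero_ne_one this
    exact (mul_eq_left₀ h2).1 h.symm
  ext x
  have h3 : (x : ZMod m) = (x.val : ℕ) • (1 : ZMod m) := by simp
  rw [h3, AddChar.map_nsmul_eq_pow, h1, one_pow]
  simp

end Pool.Agent.X220.ZK
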