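import Pool.Agent.X220.ZK.Gen
import Pool.Agent.X55.Fam.LinCor
import Pool.Agent.TH915.PW.IntCrit

set_option autoImplicit false

/-! # Family: values of Zeckendorf-additive functions, in arbitrary short intervals -/

namespace Pool.Agent.X220.ZK

open Finset
open Pool.Agent.H469R2.NK (e norm_e e_add e_zero)
open Pool.Agent.TH915.PW (class_le)

variable {G : Type} [AddCommGroup G]

/-- the Zeckendorf-additive function of a sequence -/
def zs (g : ℕ → G) (n : ℕ) : G := ((Nat.zeckendorf n).map g).sum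

/-- no nontrivial character is multiplicative along the Fibonacci recurrence on a long window -/
def Spread (g : ℕ → G) : Prop :=
  ∃ L : ℕ, ∀ χ : AddChar G ℂ, χ ≠ 0 → ∀ k₀ : ℕ, ∃ k, k₀ ≤ k ∧ k ≤ k₀ + L ∧ χ (g (k + 2)) ≠ χ (g (k + 1)) * χ (g k)

/-- the weights -/
noncomputable def ww (g : ℕ → G) (χ : AddChar G ℂ) (x : ℝ) (k : ℕ) : ℂ := χ (g k) * e (x * Nat.fib k)

lemma zf_ww (g : ℕ → G) (χ : AddChar G ℂ) (x : ℝ) (n : ℕ) : zf (ww g χ x) n = χ (zs g n) * e (x * n) := by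
  have key : ∀ l : List ℕ, (l.map (ww g χ x)).prod = χ ((l.map g).sum) * e (x * ((l.map Nat.fib).sum : ℕ)) := by
    intro l
    induction l with
    | nil => simp [e_zero]
    | cons a l ih =>
      rw [List.map_cons, List.prod_cons, ih, List.map_cons, List.sum_cons, List.map_cons, List.sum_cons,
        AddChar.map_add_eq_mul]
      unfold ww
      push_cast
      rw [mul_add, e_add]
      ring
  unfold zf zs
  rw [key, Nat.sum_zeckendorf_fib]

variable [Fintype G]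

lemma norm_ww (g : ℕ → G) (χ : AddChar G ℂ) (x : ℝ) (k : ℕ) : ‖ww g χ x k‖ = 1 := by
  unfold ww
  rw [norm_mul, norm_e, AddChar.norm_apply, one_mul]

/-- a positive lower bound for the nonzero differences -/
lemma exists_gap (G : Type) [AddCommGroup G] [Fintype G] : ∃ ε : ℝ, 0 < ε ∧ ε ≤ 1 ∧
    ∀ (χ : AddChar G ℂ) (a b c : G), χ a ≠ χ b * χ c → ε ≤ ‖χ a - χ b * χ c‖ := by
  classical
  let f : (AddChar G ℂ × G × G × G) → ℝ := fun t => if t.1 t.2.1 = t.1 t.2.2.1 * t.1 t.2.2.2 then 1 else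
    ‖t.1 t.2.1 - t.1 t.2.2.1 * t.1 t.2.2.2‖
  obtain ⟨t₀, ht₀⟩ := Finite.exists_min f
  have hpos : 0 < f t₀ := by
    show 0 < (if _ then (1 : ℝ) else _)
    split_ifs with h
    · exact one_pos
    · rw [norm_pos_iff, sub_ne_zero]; exact h
  refine ⟨min 1 (f t₀), by positivity, min_le_left _ _, ?_⟩
  intro χ a b c h
  have h1 := ht₀ (χ, a, b, c)
  have h2 : f (χ, a, b, c) = ‖χ a - χ b * χ c‖ := by
    show (if χ a = χ b * χ c then (1 : ℝ) else ‖χ a - χ b * χ c‖) = _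
    rw [if_neg h]
  rw [h2] at h1
  exact (min_le_right _ _).trans h1

/-- the weights are away from `1` in every window -/
lemma window (g : ℕ → G) {L : ℕ} {ε : ℝ} (hε : ∀ (χ : AddChar G ℂ) (a b c : G), χ a ≠ χ b * χ c →
    ε ≤ ‖χ a - χ b * χ c‖) (χ : AddChar G ℂ)
    (hL : ∀ k₀ : ℕ, ∃ k, k₀ ≤ k ∧ k ≤ k₀ + L ∧ χ (g (k + 2)) ≠ χ (g (k + 1)) * χ (g k)) (x : ℝ) (k₀ : ℕ) :
    ∃ j, k₀ ≤ j ∧ j ≤ k₀ + (L + 2) ∧ ε / 3 ≤ ‖ww g χ x j - 1‖ := by
  obtain ⟨k, h1, h2, h3⟩ := hL k₀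
  by_contra hcon
  push Not at hcon
  have a0 := hcon k (by omega) (by omega)
  have a1 := hcon (k + 1) (by omega) (by omega)
  have a2 := hcon (k + 2) (by omega) (by omega)
  have h4 := hε χ _ _ _ h3
  have e1 : ww g χ x (k + 2) - ww g χ x (k + 1) * ww g χ x k =
      (χ (g (k + 2)) - χ (g (k + 1)) * χ (g k)) * e (x * Nat.fib (k + 2)) := by
    have : e (x * Nat.fib (k + 2)) = e (x * Nat.fib (k + 1)) * e (x * Nat.fib k) := by
      rw [← e_add, Nat.fib_add_two]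
      congr 1
      push_cast; ring
    unfold ww
    rw [this]
    ring
  have h5 : ε ≤ ‖ww g χ x (k + 2) - ww g χ x (k + 1) * ww g χ x k‖ := by
    rw [e1, norm_mul, norm_e, mul_one]; exact h4
  have e2 : ww g χ x (k + 2) - ww g χ x (k + 1) * ww g χ x k =
      (ww g χ x (k + 2) - 1) - (ww g χ x (k + 1) - 1) - ww g χ x (k + 1) * (ww g χ x k - 1) := by ring
  have h6 : ‖ww g χ x (k + 2) - ww g χ x (k + 1) * ww g χ x k‖ ≤
      ‖ww g χ x (k + 2) - 1‖ + ‖ww g χ x (k + 1) - 1‖ + ‖ww g χ x k - 1‖ := by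
    rw [e2]
    refine (norm_sub_le _ _).trans ?_
    rw [norm_mul, norm_ww, one_mul]
    have := norm_sub_le (ww g χ x (k + 2) - 1) (ww g χ x (k + 1) - 1)
    linarith
  linarith

/-- the exponential sums -/
theorem exp_bound (g : ℕ → G) (hg : Spread g) (a : ℕ) : ∃ A X₀ : ℕ, ∀ X : ℕ, X₀ ≤ X → ∀ H : ℕ, X ^ A ≤ H →
    ∀ χ : AddChar G ℂ, χ ≠ 0 → ∀ (x : ℝ) (M : ℕ),
    (X : ℝ) ^ a * ‖∑ n ∈ Ioc M (M + H), χ (zs g n) * e (x * n)‖ ≤ H := by
  obtain ⟨L, hL⟩ := hg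
  obtain ⟨ε, hε0, hε1, hε⟩ := exists_gap G
  set c : ℝ := (ε / 3) ^ 2 / 24 with hc
  have hc0 : 0 < c := by positivity
  have hc1 : c < 1 := by
    rw [hc]; nlinarith
  obtain ⟨b, hb⟩ := exists_pow_lt_of_lt_one (show (0 : ℝ) < 1 / 2 by norm_num) (show 1 - c < 1 by linarith)
  -- `t = b (a + 1) l`, `2 ^ (l - 1) ≤ X < 2 ^ l`
  refine ⟨(L + 5) * (b * (a + 1)) + a + 3, 2 ^ ((L + 5) * (b * (a + 1)) + 8), ?_⟩
  intro X hX H hH χ hχ x M
  have hX2 : 2 ^ 8 ≤ X := le_trans (Nat.pow_le_pow_right (by norm_num) (by omega)) hX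
  have hX0 : X ≠ 0 := by
    have : 0 < 2 ^ 8 := by norm_num
    omega
  set l := Nat.log 2 X + 1 with hl
  have hl1 : X < 2 ^ l := Nat.lt_pow_succ_log_self (by norm_num) X
  have hl2 : 2 ^ l ≤ 2 * X := by
    rw [hl, pow_succ, mul_comm]
    exact Nat.mul_le_mul_left _ (Nat.pow_log_le_self 2 hX0)
  set t := b * (a + 1) * l with ht
  have hXr : (256 : ℝ) ≤ X := by exact_mod_cast hX2
  have hit := iterate (ww g χ x) (norm_ww g χ x) (ε := ε / 3) (by positivity) (by linarith) (L := L + 2)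
    (window g hε χ (hL χ hχ) x) t
  have hct : (1 - c) ^ t ≤ 1 / (X : ℝ) ^ (a + 1) := by
    have h1 : (1 - c) ^ t ≤ (1 / 2) ^ ((a + 1) * l) := by
      rw [ht, show b * (a + 1) * l = b * ((a + 1) * l) by ring, pow_mul]
      exact pow_le_pow_left₀ (pow_nonneg (by linarith) _) hb.le _
    refine h1.trans ?_
    rw [one_div_pow, mul_comm (a + 1) l, pow_mul]
    apply one_div_le_one_div_of_le (by positivity)
    apply pow_le_pow_left₀ (by positivity)
    exact_mod_cast hl1.le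
  have hSS := SS_bound (ww g χ x) (norm_ww g χ x) (c := 1 / (X : ℝ) ^ (a + 1)) (by positivity)
    (i₀ := 1 + (L + 2 + 3) * t) (fun i hi => (hit i hi).trans (by
      apply mul_le_mul_of_nonneg_right hct (Nat.cast_nonneg _))) H
  have hIB := interval_bound (ww g χ x) (norm_ww g χ x) (M + H + 1) (M + 1) (by omega)
  rw [show M + H + 1 - (M + 1) = H by omega] at hIB
  have hIoc : ∑ n ∈ Ioc M (M + H), χ (zs g n) * e (x * n) = ∑ n ∈ Ico (M + 1) (M + H + 1), zf (ww g χ x) n := by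
    have : Ioc M (M + H) = Ico (M + 1) (M + H + 1) := by
      ext n
      rw [mem_Ioc, mem_Ico]
      omega
    rw [this]
    exact sum_congr rfl fun n _ => (zf_ww g χ x n).symm
  rw [hIoc]
  -- the power of two
  have hpow : (2 : ℝ) ^ (1 + (L + 2 + 3) * t + 1) ≤ (X : ℝ) ^ ((L + 5) * (b * (a + 1)) + 1) := by
    have h1 : 1 + (L + 2 + 3) * t + 1 = 2 + l * ((L + 5) * (b * (a + 1))) := by rw [ht]; ring
    rw [h1, pow_add, pow_mul]
    have h2 : ((2 : ℝ) ^ l) ≤ 2 * X := by exact_mod_cast hl2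
    calc (2 : ℝ) ^ 2 * (2 ^ l) ^ ((L + 5) * (b * (a + 1))) ≤ 2 ^ 2 * (2 * X) ^ ((L + 5) * (b * (a + 1))) := by gcongr
      _ = (2 ^ ((L + 5) * (b * (a + 1)) + 2)) * (X : ℝ) ^ ((L + 5) * (b * (a + 1))) := by
          rw [mul_pow, pow_add]; ring
      _ ≤ X * (X : ℝ) ^ ((L + 5) * (b * (a + 1))) := by
          apply mul_le_mul_of_nonneg_right _ (by positivity)
          have h3 : 2 ^ ((L + 5) * (b * (a + 1)) + 2) ≤ X :=
            le_trans (Nat.pow_le_pow_right (by norm_num) (by omega)) hX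
          exact_mod_cast h3
      _ = _ := by rw [pow_succ]; ring
  have hHX : (X : ℝ) ^ ((L + 5) * (b * (a + 1)) + a + 3) ≤ H := by exact_mod_cast hH
  set E := (L + 5) * (b * (a + 1)) with hE
  have h1 : ‖∑ n ∈ Ico (M + 1) (M + H + 1), zf (ww g χ x) n‖ ≤
      1 + 2 * ((X : ℝ) ^ (E + 1) + 3 * (1 / (X : ℝ) ^ (a + 1)) * H) := by
    refine hIB.trans ?_
    linarith
  calc (X : ℝ) ^ a * ‖∑ n ∈ Ico (M + 1) (M + H + 1), zf (ww g χ x) n‖ ≤
      (X : ℝ) ^ a * (1 + 2 * ((X : ℝ) ^ (E + 1) + 3 * (1 / (X : ℝ) ^ (a + 1)) * H)) := by gcongr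
    _ = (X : ℝ) ^ a + 2 * X ^ (E + a + 1) + 6 * H / X := by
        have : (X : ℝ) ≠ 0 := by positivity
        rw [pow_succ (X : ℝ) a, show E + a + 1 = a + (E + 1) by ring, pow_add (X : ℝ) a (E + 1)]
        field_simp
        ring
    _ ≤ 3 * X ^ (E + a + 1) + 6 * H / X := by
        have : (X : ℝ) ^ a ≤ X ^ (E + a + 1) := pow_le_pow_right₀ (by linarith) (by omega)
        linarith
    _ ≤ 3 * (H / X) + 6 * H / X := by
        have : (X : ℝ) ^ (E + a + 1) ≤ H / X := by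
          rw [le_div_iff₀ (by positivity), ← pow_succ]
          exact le_trans (pow_le_pow_right₀ (by linarith) (by omega)) hHX
        linarith
    _ = H * (9 / X) := by ring
    _ ≤ H * 1 := by
        apply mul_le_mul_of_nonneg_left _ (Nat.cast_nonneg _)
        rw [div_le_one (by linarith)]; linarith
    _ = H := mul_one _

end Pool.Agent.X220.ZK
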