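import Mathlib

set_option autoImplicit false

/-! # Sums of Zeckendorf-multiplicative functions over intervals -/

namespace Pool.Agent.X220.ZK

open Finset Nat

/-- the Zeckendorf-multiplicative function of a sequence -/
noncomputable def zf (w : ℕ → ℂ) (n : ℕ) : ℂ := ((Nat.zeckendorf n).map w).prod

lemma zf_zero (w : ℕ → ℂ) : zf w 0 = 1 := by simp [zf]

lemma gf_eq {k n : ℕ} (h1 : fib k ≤ n) (h2 : n < fib (k + 1)) : greatestFib n = k := by
  have a1 : k ≤ greatestFib n := le_greatestFib.2 h1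
  have a2 : greatestFib n < k + 1 := greatestFib_lt.2 h2
  omega

lemma zf_add (w : ℕ → ℂ) {k m : ℕ} (hk : 2 ≤ k) (hm : m < fib (k - 1)) : zf w (fib k + m) = w k * zf w m := by
  have h1 : fib (k + 1) = fib k + fib (k - 1) := by
    obtain ⟨j, rfl⟩ : ∃ j, k = j + 1 := ⟨k - 1, by omega⟩
    rw [Nat.fib_add_two, Nat.add_sub_cancel, add_comm]
  have hg : greatestFib (fib k + m) = k := gf_eq (by omega) (by omega)
  have hpos : 0 < fib k + m := by
    have := Nat.fib_pos.2 (show 0 < k by omega)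
    omega
  unfold zf
  rw [zeckendorf_of_pos hpos, hg, List.map_cons, List.prod_cons, Nat.add_sub_cancel_left]

lemma norm_zf (w : ℕ → ℂ) (hw : ∀ k, ‖w k‖ = 1) (n : ℕ) : ‖zf w n‖ = 1 := by
  unfold zf
  rw [List.norm_prod, List.map_map]
  have : ∀ l : List ℕ, (List.map ((fun x => ‖x‖) ∘ w) l).prod = 1 := by
    intro l
    induction l with
    | nil => simp
    | cons a l ih => rw [List.map_cons, List.prod_cons, ih]; simp [hw]
  exact this _

/-- the sum up to a Fibonacci number -/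
noncomputable def GG (w : ℕ → ℂ) (k : ℕ) : ℂ := ∑ n ∈ range (fib k), zf w n

lemma GG_rec (w : ℕ → ℂ) {k : ℕ} (hk : 2 ≤ k) : GG w (k + 1) = GG w k + w k * GG w (k - 1) := by
  have h1 : fib (k + 1) = fib k + fib (k - 1) := by
    obtain ⟨j, rfl⟩ : ∃ j, k = j + 1 := ⟨k - 1, by omega⟩
    rw [Nat.fib_add_two, Nat.add_sub_cancel, add_comm]
  unfold GG
  rw [h1, sum_range_add, mul_sum]
  congr 1
  refine sum_congr rfl fun m hm => ?_
  exact zf_add w hk (mem_range.1 hm)

lemma GG_triv (w : ℕ → ℂ) (hw : ∀ k, ‖w k‖ = 1) (k : ℕ) : ‖GG w k‖ ≤ fib k := by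
  unfold GG
  refine (norm_sum_le _ _).trans ?_
  simp [norm_zf w hw]

/-- a number of the unit circle away from `1` -/
lemma one_add_norm {z : ℂ} (hz : ‖z‖ = 1) {ε : ℝ} (hε : 0 ≤ ε) (h : ε ≤ ‖z - 1‖) : ‖1 + z‖ ≤ 2 - ε ^ 2 / 4 := by
  have h1 : ‖1 + z‖ ^ 2 + ‖z - 1‖ ^ 2 = 4 := by
    have h2 := parallelogram_law_with_norm ℝ z 1
    rw [norm_one, hz] at h2
    rw [add_comm (1 : ℂ) z]
    nlinarith [h2]
  have h3 : ‖1 + z‖ ≤ 2 := by
    refine (norm_add_le _ _).trans ?_
    rw [norm_one, hz]; norm_num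
  have h4 : ε ^ 2 ≤ ‖z - 1‖ ^ 2 := pow_le_pow_left₀ hε h 2
  have h5 : 0 ≤ ‖1 + z‖ := norm_nonneg _
  nlinarith

/-- the contraction -/
lemma contract (w : ℕ → ℂ) (hw : ∀ k, ‖w k‖ = 1) {ε : ℝ} (hε : 0 < ε) (hε1 : ε ≤ 2) {M : ℝ} (hM : 0 ≤ M) {k j : ℕ}
    (hk : 1 ≤ k) (hj : k + 2 ≤ j) (hG : ∀ i, k ≤ i → ‖GG w i‖ ≤ M * fib i) (hwj : ε ≤ ‖w j - 1‖) :
    ∀ i, j + 1 ≤ i → ‖GG w i‖ ≤ (1 - ε ^ 2 / 24) * M * fib i := by
  have hc0 : 0 < ε ^ 2 / 24 := by positivity
  have hc1 : ε ^ 2 / 24 ≤ 1 / 6 := by nlinarith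
  have f1 : (fib (j + 1) : ℝ) = 2 * fib (j - 1) + fib (j - 2) := by
    obtain ⟨t, rfl⟩ : ∃ t, j = t + 2 := ⟨j - 2, by omega⟩
    rw [show t + 2 + 1 = (t + 1) + 2 by ring, Nat.fib_add_two, show t + 1 + 1 = t + 2 by ring, Nat.fib_add_two,
      show t + 2 - 1 = t + 1 by omega, Nat.add_sub_cancel]
    push_cast; ring
  have f2 : fib (j - 2) ≤ fib (j - 1) := Nat.fib_mono (by omega)
  have f2r : (fib (j - 2) : ℝ) ≤ fib (j - 1) := by exact_mod_cast f2
  have g1 : ‖GG w (j + 1)‖ ≤ (1 - 2 * (ε ^ 2 / 24)) * M * fib (j + 1) := by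
    have e1 := GG_rec w (k := j) (by omega)
    have e2 := GG_rec w (k := j - 1) (by omega)
    rw [show j - 1 + 1 = j by omega, show j - 1 - 1 = j - 2 by omega] at e2
    have e3 : GG w (j + 1) = (1 + w j) * GG w (j - 1) + w (j - 1) * GG w (j - 2) := by
      rw [e1, e2]; ring
    rw [e3]
    refine (norm_add_le _ _).trans ?_
    rw [norm_mul, norm_mul, hw, one_mul]
    have b1 := one_add_norm (hw j) hε.le hwj
    have b2 := hG (j - 1) (by omega)
    have b3 := hG (j - 2) (by omega)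
    calc ‖1 + w j‖ * ‖GG w (j - 1)‖ + ‖GG w (j - 2)‖ ≤ (2 - ε ^ 2 / 4) * (M * fib (j - 1)) + M * fib (j - 2) := by
          apply add_le_add _ b3
          exact mul_le_mul b1 b2 (norm_nonneg _) (by nlinarith)
      _ = M * (fib (j + 1) - ε ^ 2 / 4 * fib (j - 1)) := by rw [f1]; ring
      _ ≤ M * (fib (j + 1) - 2 * (ε ^ 2 / 24) * fib (j + 1)) := by
          apply mul_le_mul_of_nonneg_left _ hM
          have : (fib (j + 1) : ℝ) ≤ 3 * fib (j - 1) := by rw [f1]; linarith
          nlinarith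
      _ = _ := by ring
  have g2 : ‖GG w (j + 2)‖ ≤ (1 - ε ^ 2 / 24) * M * fib (j + 2) := by
    have e1 := GG_rec w (k := j + 1) (by omega)
    rw [show j + 1 + 1 = j + 2 by ring, Nat.add_sub_cancel] at e1
    rw [e1]
    refine (norm_add_le _ _).trans ?_
    rw [norm_mul, hw, one_mul]
    have b3 := hG j (by omega)
    have f3 : (fib (j + 2) : ℝ) = fib j + fib (j + 1) := by rw [Nat.fib_add_two]; push_cast; ring
    have f4 : (fib j : ℝ) ≤ fib (j + 1) := by exact_mod_cast Nat.fib_le_fib_succ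
    rw [f3]
    have f0 : (0 : ℝ) ≤ fib j := Nat.cast_nonneg _
    have h1 : M * (ε ^ 2 / 24) * fib j ≤ M * (ε ^ 2 / 24) * fib (j + 1) := by gcongr
    nlinarith
  intro i hi
  induction i using Nat.strong_induction_on with
  | _ i ih =>
    rcases Nat.lt_or_ge i (j + 3) with h3 | h3
    · have : i = j + 1 ∨ i = j + 2 := by omega
      rcases this with rfl | rfl
      · refine g1.trans ?_
        have : 0 ≤ M * (ε ^ 2 / 24) * (fib (j + 1) : ℝ) := by positivity
        nlinarith
      · exact g2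
    · have e1 := GG_rec w (k := i - 1) (by omega)
      rw [show i - 1 + 1 = i by omega, show i - 1 - 1 = i - 2 by omega] at e1
      rw [e1]
      refine (norm_add_le _ _).trans ?_
      rw [norm_mul, hw, one_mul]
      have b1 := ih (i - 1) (by omega) (by omega)
      have b2 := ih (i - 2) (by omega) (by omega)
      have f3 : (fib i : ℝ) = fib (i - 2) + fib (i - 1) := by
        obtain ⟨t, rfl⟩ : ∃ t, i = t + 2 := ⟨i - 2, by omega⟩
        rw [Nat.fib_add_two, Nat.add_sub_cancel, show t + 2 - 1 = t + 1 by omega]; push_cast; ring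
      rw [f3]
      linarith [b1, b2, mul_add ((1 - ε ^ 2 / 24) * M) (fib (i - 2) : ℝ) (fib (i - 1))]

/-- iterating the contraction -/
lemma iterate (w : ℕ → ℂ) (hw : ∀ k, ‖w k‖ = 1) {ε : ℝ} (hε : 0 < ε) (hε1 : ε ≤ 2) {L : ℕ}
    (hL : ∀ k, ∃ j, k ≤ j ∧ j ≤ k + L ∧ ε ≤ ‖w j - 1‖) (t : ℕ) :
    ∀ i, 1 + (L + 3) * t ≤ i → ‖GG w i‖ ≤ (1 - ε ^ 2 / 24) ^ t * fib i := by
  have hc1 : ε ^ 2 / 24 ≤ 1 / 6 := by nlinarith
  induction t with
  | zero =>
    intro i _
    rw [pow_zero, one_mul]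
    exact GG_triv w hw i
  | succ t ih =>
    intro i hi
    obtain ⟨j, hj1, hj2, hj3⟩ := hL (1 + (L + 3) * t + 2)
    have := contract w hw hε hε1 (M := (1 - ε ^ 2 / 24) ^ t) (pow_nonneg (by linarith) _) (k := 1 + (L + 3) * t)
      (by omega) hj1 ih hj3 i (by
        have : (L + 3) * (t + 1) = (L + 3) * t + L + 3 := by ring
        omega)
    rw [_root_.pow_succ']
    exact this

/-- the sum of the bounds -/
noncomputable def SS (w : ℕ → ℂ) (k : ℕ) : ℝ := ∑ i ∈ range (k + 1), ‖GG w i‖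

lemma SS_mono (w : ℕ → ℂ) {a b : ℕ} (h : a ≤ b) : SS w a ≤ SS w b := by
  unfold SS
  exact sum_le_sum_of_subset_of_nonneg (range_subset_range.2 (by omega)) fun _ _ _ => norm_nonneg _

lemma SS_nonneg (w : ℕ → ℂ) (a : ℕ) : 0 ≤ SS w a := sum_nonneg fun _ _ => norm_nonneg _

lemma prefix_bound (w : ℕ → ℂ) (hw : ∀ k, ‖w k‖ = 1) : ∀ y : ℕ, ‖∑ n ∈ range y, zf w n‖ ≤ SS w (greatestFib y) := by
  intro y
  induction y using Nat.strong_induction_on with
  | _ y ih =>
    rcases Nat.eq_zero_or_pos y with rfl | hy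
    · simp only [range_zero, sum_empty, norm_zero]
      exact SS_nonneg _ _
    · set k := greatestFib y with hk
      have h1 : fib k ≤ y := fib_greatestFib_le y
      have h2 : y < fib (k + 1) := lt_fib_greatestFib_add_one y
      have hk2 : 2 ≤ k := le_greatestFib.2 (by rw [Nat.fib_two]; exact hy)
      have h3 : fib (k + 1) = fib k + fib (k - 1) := by
        obtain ⟨j, hj⟩ : ∃ j, k = j + 1 := ⟨k - 1, by omega⟩
        rw [hj, Nat.fib_add_two, Nat.add_sub_cancel, add_comm]
      have hfk : 0 < fib k := Nat.fib_pos.2 (by omega)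
      obtain ⟨z, hz⟩ : ∃ z, y = fib k + z := ⟨y - fib k, by omega⟩
      have e1 : ∑ n ∈ range y, zf w n = GG w k + w k * ∑ n ∈ range z, zf w n := by
        rw [hz, sum_range_add, mul_sum]
        congr 1
        refine sum_congr rfl fun m hm => zf_add w hk2 ?_
        have := mem_range.1 hm
        omega
      rw [e1]
      refine (norm_add_le _ _).trans ?_
      rw [norm_mul, hw, one_mul]
      have h4 := ih z (by omega)
      have h5 : greatestFib z < k := by
        rw [greatestFib_lt]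
        have : fib (k - 1) ≤ fib k := Nat.fib_mono (by omega)
        omega
      have h6 : SS w (greatestFib z) + ‖GG w k‖ ≤ SS w k := by
        obtain ⟨j, hj⟩ : ∃ j, k = j + 1 := ⟨k - 1, by omega⟩
        have h7 : SS w (j + 1) = SS w j + ‖GG w (j + 1)‖ := by
          unfold SS
          rw [sum_range_succ _ (j + 1)]
        rw [hj, h7]
        have := SS_mono w (show greatestFib z ≤ j by omega)
        linarith
      linarith

lemma shift (w : ℕ → ℂ) {k x y : ℕ} (hk : 2 ≤ k) (hy : y ≤ fib (k - 1)) :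
    ∑ n ∈ Ico (fib k + x) (fib k + y), zf w n = w k * ∑ n ∈ Ico x y, zf w n := by
  rw [mul_sum, add_comm (fib k) x, add_comm (fib k) y, ← Finset.sum_Ico_add]
  refine sum_congr rfl fun m hm => zf_add w hk ?_
  have := (mem_Ico.1 hm).2
  omega

lemma suffix_bound (w : ℕ → ℂ) (hw : ∀ k, ‖w k‖ = 1) : ∀ k x : ℕ, x ≤ fib k →
    ‖∑ n ∈ Ico x (fib k), zf w n‖ ≤ 1 + ∑ i ∈ (range (k - 1)).filter (fun i => fib i ≤ fib k - x), ‖GG w i‖ := by
  intro k
  induction k using Nat.strong_induction_on with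
  | _ k ih =>
    intro x hx
    have hS0 : ∀ k' h' : ℕ, 0 ≤ ∑ i ∈ (range (k' - 1)).filter (fun i => fib i ≤ h'), ‖GG w i‖ := fun _ _ =>
      sum_nonneg fun _ _ => norm_nonneg _
    rcases Nat.lt_or_ge k 3 with hk | hk
    · have h1 : fib k ≤ 1 := by
        interval_cases k <;> simp
      have h2 : ‖∑ n ∈ Ico x (fib k), zf w n‖ ≤ 1 := by
        refine (norm_sum_le _ _).trans ?_
        simp only [norm_zf w hw, sum_const, Nat.card_Ico, nsmul_eq_mul, mul_one]
        have : fib k - x ≤ 1 := by omega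
        exact_mod_cast this
      have := hS0 k (fib k - x)
      linarith
    · have f1 : fib k = fib (k - 1) + fib (k - 2) := by
        obtain ⟨j, rfl⟩ : ∃ j, k = j + 2 := ⟨k - 2, by omega⟩
        rw [Nat.fib_add_two, Nat.add_sub_cancel, show j + 2 - 1 = j + 1 by omega, add_comm]
      have hsh : ∀ z, z ≤ fib (k - 2) → ∑ n ∈ Ico (fib (k - 1) + z) (fib k), zf w n =
          w (k - 1) * ∑ n ∈ Ico z (fib (k - 2)), zf w n := by
        intro z hz
        rw [f1]
        exact shift w (by omega) (by rw [show k - 1 - 1 = k - 2 by omega])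
      rcases le_or_gt (fib (k - 1)) x with h | h
      · obtain ⟨z, hz⟩ : ∃ z, x = fib (k - 1) + z := ⟨x - fib (k - 1), by omega⟩
        have hz2 : z ≤ fib (k - 2) := by omega
        rw [hz, hsh z hz2, norm_mul, hw, one_mul, ← hz]
        have h3 := ih (k - 2) (by omega) z hz2
        refine h3.trans ?_
        have h4 : fib (k - 2) - z = fib k - x := by omega
        rw [h4]
        have : ∑ i ∈ (range (k - 2 - 1)).filter (fun i => fib i ≤ fib k - x), ‖GG w i‖ ≤
            ∑ i ∈ (range (k - 1)).filter (fun i => fib i ≤ fib k - x), ‖GG w i‖ := by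
          refine sum_le_sum_of_subset_of_nonneg ?_ fun _ _ _ => norm_nonneg _
          exact filter_subset_filter _ (range_subset_range.2 (by omega))
        linarith
      · have e0 := hsh 0 (Nat.zero_le _)
        rw [add_zero] at e0
        have e1 : ∑ n ∈ Ico x (fib k), zf w n = ∑ n ∈ Ico x (fib (k - 1)), zf w n + w (k - 1) * GG w (k - 2) := by
          rw [← Finset.sum_Ico_consecutive _ h.le (show fib (k - 1) ≤ fib k by omega), e0]
          unfold GG
          rw [range_eq_Ico]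
        rw [e1]
        refine (norm_add_le _ _).trans ?_
        rw [norm_mul, hw, one_mul]
        have h3 := ih (k - 1) (by omega) x h.le
        have h4 : ∑ i ∈ (range (k - 1 - 1)).filter (fun i => fib i ≤ fib (k - 1) - x), ‖GG w i‖ + ‖GG w (k - 2)‖ ≤
            ∑ i ∈ (range (k - 1)).filter (fun i => fib i ≤ fib k - x), ‖GG w i‖ := by
          have h5 : k - 2 ∉ (range (k - 1 - 1)).filter (fun i => fib i ≤ fib (k - 1) - x) := by
            rw [mem_filter, mem_range]
            omega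
          rw [add_comm, ← sum_insert (f := fun i => ‖GG w i‖) h5]
          refine sum_le_sum_of_subset_of_nonneg ?_ fun _ _ _ => norm_nonneg _
          intro i hi
          rw [mem_insert, mem_filter, mem_range] at hi
          rw [mem_filter, mem_range]
          rcases hi with rfl | ⟨h6, h7⟩
          · exact ⟨by omega, by omega⟩
          · exact ⟨by omega, by omega⟩
        linarith

lemma suffix_bound' (w : ℕ → ℂ) (hw : ∀ k, ‖w k‖ = 1) (k x : ℕ) (hx : x ≤ fib k) :
    ‖∑ n ∈ Ico x (fib k), zf w n‖ ≤ 1 + SS w (greatestFib (fib k - x)) := by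
  refine (suffix_bound w hw k x hx).trans ?_
  unfold SS
  have : ∑ i ∈ (range (k - 1)).filter (fun i => fib i ≤ fib k - x), ‖GG w i‖ ≤
      ∑ i ∈ range (greatestFib (fib k - x) + 1), ‖GG w i‖ := by
    refine sum_le_sum_of_subset_of_nonneg ?_ fun _ _ _ => norm_nonneg _
    intro i hi
    rw [mem_filter] at hi
    rw [mem_range]
    have := le_greatestFib.2 hi.2
    omega
  linarith

/-- the sum over an interval -/
theorem interval_bound (w : ℕ → ℂ) (hw : ∀ k, ‖w k‖ = 1) : ∀ y x : ℕ, x ≤ y →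
    ‖∑ n ∈ Ico x y, zf w n‖ ≤ 1 + 2 * SS w (greatestFib (y - x)) := by
  intro y
  induction y using Nat.strong_induction_on with
  | _ y ih =>
    intro x hx
    rcases Nat.eq_zero_or_pos y with rfl | hy
    · have : x = 0 := by omega
      subst this
      simp only [Ico_self, sum_empty, norm_zero]
      have := SS_nonneg w (greatestFib (0 - 0))
      linarith
    · set k := greatestFib y with hk
      have h1 : fib k ≤ y := fib_greatestFib_le y
      have h2 : y < fib (k + 1) := lt_fib_greatestFib_add_one y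
      have hk2 : 2 ≤ k := le_greatestFib.2 (by rw [Nat.fib_two]; exact hy)
      have h3 : fib (k + 1) = fib k + fib (k - 1) := by
        obtain ⟨j, hj⟩ : ∃ j, k = j + 1 := ⟨k - 1, by omega⟩
        rw [hj, Nat.fib_add_two, Nat.add_sub_cancel, add_comm]
      have hfk : 0 < fib k := Nat.fib_pos.2 (by omega)
      obtain ⟨z, hz⟩ : ∃ z, y = fib k + z := ⟨y - fib k, by omega⟩
      rcases le_or_gt (fib k) x with h | h
      · obtain ⟨x', hx'⟩ : ∃ x', x = fib k + x' := ⟨x - fib k, by omega⟩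
        have e1 : ∑ n ∈ Ico x y, zf w n = w k * ∑ n ∈ Ico x' z, zf w n := by
          rw [hx', hz]
          exact shift w hk2 (by omega)
        rw [e1, norm_mul, hw, one_mul]
        have h4 := ih z (by omega) x' (by omega)
        have h5 : z - x' = y - x := by omega
        rwa [h5] at h4
      · have e1 : ∑ n ∈ Ico x y, zf w n = ∑ n ∈ Ico x (fib k), zf w n + w k * ∑ n ∈ range z, zf w n := by
          rw [← Finset.sum_Ico_consecutive _ h.le h1]
          congr 1
          have := shift w (k := k) (x := 0) (y := z) hk2 (by omega)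
          rw [add_zero, ← hz] at this
          rw [this, range_eq_Ico]
        rw [e1]
        refine (norm_add_le _ _).trans ?_
        rw [norm_mul, hw, one_mul]
        have h4 := suffix_bound' w hw k x h.le
        have h5 := prefix_bound w hw z
        have h6 := SS_mono w (greatestFib_mono (show fib k - x ≤ y - x by omega))
        have h7 := SS_mono w (greatestFib_mono (show z ≤ y - x by omega))
        linarith

lemma fib_le_two_pow (k : ℕ) : fib k ≤ 2 ^ k := by
  induction k using Nat.strong_induction_on with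
  | _ k ih =>
    rcases Nat.lt_or_ge k 2 with h | h
    · interval_cases k <;> simp
    · obtain ⟨j, rfl⟩ : ∃ j, k = j + 2 := ⟨k - 2, by omega⟩
      rw [Nat.fib_add_two]
      have h1 := ih j (by omega)
      have h2 := ih (j + 1) (by omega)
      have h3 : 2 ^ (j + 2) = 4 * 2 ^ j := by ring
      have h4 : 2 ^ (j + 1) = 2 * 2 ^ j := by ring
      omega

lemma sum_fib (k : ℕ) : ∑ i ∈ range (k + 1), fib i ≤ fib (k + 2) := by
  have := Nat.fib_succ_eq_succ_sum (k + 1)
  have h2 : fib (k + 1 + 1) = fib (k + 2) := rfl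
  omega

/-- the final bound -/
theorem SS_bound (w : ℕ → ℂ) (hw : ∀ k, ‖w k‖ = 1) {c : ℝ} (hc : 0 ≤ c) {i₀ : ℕ}
    (h : ∀ i, i₀ ≤ i → ‖GG w i‖ ≤ c * fib i) (H : ℕ) :
    SS w (greatestFib H) ≤ 2 ^ (i₀ + 1) + 3 * c * H := by
  set K := greatestFib H with hK
  have h1 : fib K ≤ H := fib_greatestFib_le H
  have h2 : fib (K + 2) ≤ 3 * fib K ∨ K = 0 := by
    rcases Nat.eq_zero_or_pos K with h0 | h0
    · exact Or.inr h0
    · left
      obtain ⟨j, hj⟩ : ∃ j, K = j + 1 := ⟨K - 1, by omega⟩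
      have e1 : fib (K + 2) = fib K + fib (K + 1) := Nat.fib_add_two
      have e2 : fib (K + 1) = fib j + fib K := by rw [hj, Nat.fib_add_two]
      have e3 : fib j ≤ fib K := Nat.fib_mono (by omega)
      omega
  unfold SS
  have h3 : ∀ i ∈ range (K + 1), ‖GG w i‖ ≤ (if i < i₀ then (fib i : ℝ) else 0) + c * fib i := by
    intro i _
    split_ifs with hi
    · have := GG_triv w hw i
      have : 0 ≤ c * (fib i : ℝ) := by positivity
      linarith
    · rw [zero_add]; exact h i (by omega)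
  refine (sum_le_sum h3).trans ?_
  rw [sum_add_distrib, ← mul_sum]
  have h4 : ∑ i ∈ range (K + 1), (if i < i₀ then (fib i : ℝ) else 0) ≤ 2 ^ (i₀ + 1) := by
    rw [← sum_filter]
    have h5 : ∑ i ∈ (range (K + 1)).filter (fun i => i < i₀), (fib i : ℝ) ≤ ∑ i ∈ range i₀, (2 : ℝ) ^ i := by
      calc ∑ i ∈ (range (K + 1)).filter (fun i => i < i₀), (fib i : ℝ) ≤ ∑ i ∈ range i₀, (fib i : ℝ) := by
            refine sum_le_sum_of_subset_of_nonneg ?_ fun _ _ _ => Nat.cast_nonneg _
            intro i hi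
            rw [mem_filter] at hi
            exact mem_range.2 hi.2
        _ ≤ _ := sum_le_sum fun i _ => by exact_mod_cast fib_le_two_pow i
    refine h5.trans ?_
    have h6 : ∑ i ∈ range i₀, (2 : ℝ) ^ i = 2 ^ i₀ - 1 := by
      rw [geom_sum_eq (by norm_num)]; norm_num
    rw [h6]
    have : (2 : ℝ) ^ (i₀ + 1) = 2 * 2 ^ i₀ := by ring
    have h7 : (0 : ℝ) < 2 ^ i₀ := by positivity
    linarith
  have h5 : ∑ i ∈ range (K + 1), (fib i : ℝ) ≤ 3 * H := by
    have h6 : ((∑ i ∈ range (K + 1), fib i : ℕ) : ℝ) ≤ 3 * H := by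
      rcases h2 with h2 | h2
      · have := sum_fib K
        have h8 : ∑ i ∈ range (K + 1), fib i ≤ 3 * H := by omega
        exact_mod_cast h8
      · rw [h2]; simp
    push_cast at h6
    exact h6
  have h6 : c * ∑ i ∈ range (K + 1), (fib i : ℝ) ≤ c * (3 * H) := by gcongr
  linarith

end Pool.Agent.X220.ZK
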